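import Pool.Agent.Y360.RR.Stm

/-!
# Denominators of best approximations (task CF of project Y360-RR)
-/

set_option autoImplicit false

namespace Pool.Agent.Y351.RR

/-- distance of `m t` to the nearest integer -/
noncomputable def dl (t : ℝ) (m : ℕ) : ℝ := |(m : ℝ) * t - round ((m : ℝ) * t)|

/-- strict record of `dl` -/
def Rec (t : ℝ) (Q : ℕ) : Prop := 0 < Q ∧ ∀ m : ℕ, 0 < m → m < Q → dl t Q < dl t m

lemma dl_pos {t : ℝ} (ht : Irrational t) {m : ℕ} (hm : 0 < m) : 0 < dl t m := by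
  unfold dl
  rw [abs_pos, sub_ne_zero]
  exact (ht.natCast_mul hm.ne').ne_int _

lemma dl_le (t : ℝ) (m : ℕ) (p : ℤ) : dl t m ≤ |(m : ℝ) * t - p| := round_le _ _

lemma step {t : ℝ} (ht : Irrational t) {Q : ℕ} (hQ : Rec t Q) :
    ∃ n, Q < n ∧ Rec t n ∧ dl t Q ≤ 1 / (n : ℝ) := by
  classical
  have hex : ∃ n : ℕ, 0 < n ∧ dl t n < dl t Q := by
    have hpos := dl_pos ht hQ.1
    obtain ⟨N, hN⟩ := exists_nat_gt (1 / dl t Q)
    have hN0 : (0 : ℝ) < N := lt_trans (by positivity) hN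
    have hNpos : 0 < N := by exact_mod_cast hN0
    obtain ⟨k, hk, hkN, h⟩ := Real.exists_nat_abs_mul_sub_round_le t hNpos
    refine ⟨k, hk, lt_of_le_of_lt h ?_⟩
    rw [div_lt_iff₀ (by positivity)]
    rw [div_lt_iff₀ hpos] at hN
    nlinarith
  set n := Nat.find hex with hndef
  have hn := Nat.find_spec hex
  rw [← hndef] at hn
  have hmin : ∀ m, 0 < m → m < n → dl t Q ≤ dl t m := fun m hm hmn => by
    by_contra hc
    exact Nat.find_min hex hmn ⟨hm, not_le.1 hc⟩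
  have hQn : Q < n := by
    by_contra hc
    rcases (not_lt.1 hc).lt_or_eq with h | h
    · exact absurd (hQ.2 n hn.1 h) (not_lt.2 hn.2.le)
    · have h2 := hn.2
      rw [h] at h2
      exact lt_irrefl _ h2
  refine ⟨n, hQn, ⟨hn.1, fun m hm hmn => lt_of_lt_of_le hn.2 (hmin m hm hmn)⟩, ?_⟩
  have h1 : 0 < n - 1 := by
    have := hQ.1
    omega
  obtain ⟨k, hk, hkn, h⟩ := Real.exists_nat_abs_mul_sub_round_le t h1
  have h2 : dl t Q ≤ dl t k := hmin k hk (by omega)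
  have h3 : ((n - 1 : ℕ) : ℝ) + 1 = n := by
    have : n - 1 + 1 = n := by omega
    exact_mod_cast this
  rw [h3] at h
  exact h2.trans h

lemma cop {t : ℝ} (ht : Irrational t) {Q : ℕ} (hQ : Rec t Q) :
    IsCoprime (round ((Q : ℝ) * t)) (Q : ℤ) := by
  rw [Int.isCoprime_iff_gcd_eq_one]
  by_contra hg
  set p : ℤ := round ((Q : ℝ) * t) with hp
  set g : ℕ := Int.gcd p Q with hgdef
  have hQ0 := hQ.1
  have hg0 : g ≠ 0 := by
    intro h
    rw [hgdef, Int.gcd_eq_zero_iff] at h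
    have := h.2
    omega
  have hg2 : 2 ≤ g := by omega
  obtain ⟨p', hp'⟩ : (g : ℤ) ∣ p := Int.gcd_dvd_left _ _
  obtain ⟨q', hq'⟩ : (g : ℤ) ∣ (Q : ℤ) := Int.gcd_dvd_right _ _
  have hq0 : 0 < q' := by
    by_contra hc
    have h1 : (g : ℤ) * q' ≤ 0 := mul_nonpos_of_nonneg_of_nonpos (by positivity) (not_lt.1 hc)
    omega
  obtain ⟨m, rfl⟩ : ∃ m : ℕ, q' = m := ⟨q'.toNat, by omega⟩
  have hm0 : 0 < m := by exact_mod_cast hq0
  have hQm : Q = g * m := by exact_mod_cast hq'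
  have hlt : m < Q := by
    rw [hQm]
    nlinarith
  have h1 := hQ.2 m hm0 hlt
  have h2 := dl_le t m p'
  have hdQ : dl t Q = g * |(m : ℝ) * t - p'| := by
    unfold dl
    rw [← hp, hp', hQm]
    push_cast
    rw [← abs_of_nonneg (show (0 : ℝ) ≤ (g : ℝ) by positivity), ← abs_mul,
      abs_of_nonneg (show (0 : ℝ) ≤ (g : ℝ) by positivity)]
    congr 1
    ring
  have hpos := dl_pos ht hQ.1
  have hg2' : (2 : ℝ) ≤ g := by exact_mod_cast hg2
  have h3 : 0 ≤ |(m : ℝ) * t - p'| := abs_nonneg _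
  nlinarith

lemma rec_one (t : ℝ) : Rec t 1 := ⟨one_pos, fun m hm hm1 => by omega⟩

open Classical in
/-- the sequence of records -/
noncomputable def sq (t : ℝ) (ht : Irrational t) : ℕ → {Q : ℕ // Rec t Q}
  | 0 => ⟨1, rec_one t⟩
  | k + 1 => ⟨Classical.choose (step ht (sq t ht k).2),
      (Classical.choose_spec (step ht (sq t ht k).2)).2.1⟩

theorem t_CF : Pool.Agent.Y360.RR.S_CF := by
  intro t ht
  refine ⟨fun k => (sq t ht k).1, fun k => round (((sq t ht k).1 : ℝ) * t), ?_, ?_, ?_, ?_⟩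
  · rfl
  · refine strictMono_nat_of_lt_succ fun k => ?_
    exact (Classical.choose_spec (step ht (sq t ht k).2)).1
  · intro k
    exact cop ht (sq t ht k).2
  · intro k
    exact (Classical.choose_spec (step ht (sq t ht k).2)).2.2

end Pool.Agent.Y351.RR
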